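import Pool.Agent.Work.MP_25cd3b_gt.M.Stmts

set_option autoImplicit false

/-!
# MP_13b5d9_gt: metrics without conjugate points on circle bundles.  Definitions

`N = R^(m+1) / G` is a closed manifold, `G` acts on `R^(m+1)` by diffeomorphisms which commute with
the translations in the direction of the last coordinate `t`, and the translation by `1` is in `G`.
So `N` carries the free circle action `t ↦ t + s`; for instance `N = M × S^1`, `M = R^m / G₀`, with
`G = G₀ × Z`.  Forms, geodesics, distances, `Minz` (no conjugate points) are those of the file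
`MP_25cd3b_gt/M/Defs`.
-/

open MeasureTheory Set Filter Topology
open scoped ContDiff ENNReal
open Pool.Agent.MLS

namespace Pool.Agent.NCP

/-- direction of the circle factor: the last vector of the standard basis -/
noncomputable def tt {m : ℕ} : E (m + 1) := ee (Fin.last m)

/-- `R^(m+1) / G` is a closed manifold on which the translations act as a free circle action -/
structure Circ (m : ℕ) (G : Type) [Group G] [MulAction G (E (m + 1))] : Prop where
  coc : Cocompact (m + 1) G
  comm : ∀ (a : G) (p : E (m + 1)) (s : ℝ), a • (p + s • (tt : E (m + 1))) = a • p + s • tt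
  one : ∃ z : G, ∀ p : E (m + 1), z • p = p + tt

/-- pull-back of the form under the rotation by `s` -/
noncomputable def rot {m : ℕ} (s : ℝ) (g : Form (m + 1)) : Form (m + 1) where
  val := fun p => g.val (p + s • tt)
  smooth := g.smooth.comp (contDiff_id.add contDiff_const)
  symm := fun _ _ _ => g.symm _ _ _
  nonneg := fun _ _ => g.nonneg _ _

/-- invariance under all rotations -/
def TInv {m : ℕ} (g : Form (m + 1)) : Prop := ∀ (p : E (m + 1)) (s : ℝ), g.val (p + s • tt) = g.val p

/-- The universal covering `(R^(m+1), g)` is the Riemannian product of a line (coordinate `f`) and of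
`(R^(m+1) / R tt, h)`, and `G` acts on the product: on the line by translations. -/
def Splits {m : ℕ} (G : Type) [Group G] [MulAction G (E (m + 1))] (g : Form (m + 1)) : Prop :=
  ∃ (c : ℝ) (f : E (m + 1) → ℝ) (h : Form (m + 1)), 0 < c ∧ ContDiff ℝ ∞ f ∧
    (∀ (p : E (m + 1)) (s : ℝ), f (p + s • tt) = f p + c * s) ∧
    (∀ a : G, ∃ r : ℝ, ∀ p, f (a • p) = f p + r) ∧
    Inv G h ∧ TInv h ∧ (∀ p u, h.val p tt u = 0) ∧
    ∀ p u v, g.val p u v = fderiv ℝ f p u * fderiv ℝ f p v + h.val p u v

/-- integral of `g (tt, ·)` along the segment from `p` to `q` -/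
noncomputable def seg {m : ℕ} (g : Form (m + 1)) (p q : E (m + 1)) : ℝ :=
  ∫ s in (0 : ℝ)..1, g.val (p + s • (q - p)) tt (q - p)

end Pool.Agent.NCP
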