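import Pool.Agent.Work.MP_13b5d9_gt.E.Defs

set_option autoImplicit false

/-!
# MP_13b5d9_gt, block E: statements of the items, each with its complete proof

Everything of `MP_25cd3b_gt/M` may be used as a hypothesis in its `St...` form (all of them are
proved there): `StGd`, `StInvD`, `StCtsD`, `StCmp`, `StDens`, `StTrI`, `StFD`, `StPU`, ...
-/

open MeasureTheory Set Filter Topology
open scoped ContDiff ENNReal
open Pool.Agent.MLS

namespace Pool.Agent.NCP

/-- Rotations.  Differentiate `a (p + s tt) = a p + s tt` in `s` at `0` (chain rule, `fderiv` of the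
smooth map `x ↦ a x`), and in `p`.  The pulled back form is invariant by `dac a (p + s tt) = dac a p`
and `a (p + s tt) = a p + s tt`. -/
def StRotI : Prop := ∀ (m : ℕ) (G : Type) [Group G] [MulAction G (E (m + 1))], Circ m G →
  (∀ (a : G) (p : E (m + 1)), dac a p tt = tt) ∧
  (∀ (a : G) (p : E (m + 1)) (s : ℝ), dac a (p + s • tt) = dac a p) ∧
  ∀ g : Form (m + 1), Inv G g → ∀ s : ℝ, Inv G (rot s g) ∧ (Riem g → Riem (rot s g))

/-- Distances of the pulled back form.  The translation by `s` maps paths to paths: induction on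
`PathLen` gives `PathLen (rot s g) x y l → PathLen g (x + s tt) (y + s tt) l`, and conversely (the
piece `c` becomes `c ∓ s tt`, with the same derivative). -/
def StRotD : Prop := ∀ (m : ℕ) (g : Form (m + 1)) (s : ℝ) (x y : E (m + 1)),
  gd (rot s g) x y = gd g (x + s • tt) (y + s • tt)

/-- The rotation by `s` moves points by a bounded distance: `p ↦ gd g p (p + s tt)` is continuous
(`StCtsD`) and invariant (`StInvD`, `comm`), so it is bounded (cocompactness). -/
def StMove : Prop := ∀ (m : ℕ) (G : Type) [Group G] [MulAction G (E (m + 1))], Circ m G →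
  ∀ g : Form (m + 1), Inv G g → ∀ s : ℝ, ∃ C, 0 ≤ C ∧ ∀ p : E (m + 1), gd g p (p + s • tt) ≤ C

/-- Long geodesics.  With `C` from `StMove`: by `Minz`, the triangle inequality and symmetry (`StGd`)
`T = gd g (c 0) (c T) ≤ C + gd g (c 0 + s tt) (c T + s tt) + C`, and by `StGd` for the curve
`t ↦ c t + s tt` (with derivative `c' t`) the middle term is at most
`∫ nrm g (c t + s tt) (c' t) = ∫ nrm (rot s g) (c t) (c' t)`.  So `C' = 2 C`. -/
def StSegR : Prop := ∀ (m : ℕ) (G : Type) [Group G] [MulAction G (E (m + 1))], Circ m G →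
  ∀ g : Form (m + 1), Riem g → Inv G g → Minz g → ∀ s : ℝ, ∃ C', 0 ≤ C' ∧
    ∀ c : ℝ → E (m + 1), IsGeo g c → (∀ t, g.val (c t) (deriv c t) (deriv c t) = 1) → ∀ T, 0 ≤ T →
      T - C' ≤ ∫ t in (0 : ℝ)..T, nrm (rot s g) (c t) (deriv c t)

/-- Invariant metrics: the circles have constant length.  `v p = g.val p tt tt` is smooth, invariant
under `G` (`StRotI`: `dac a p tt = tt`) and under translations, positive; by cocompactness it has
a maximum point `p` on `R^(m+1)`, so `fderiv v p = 0`, and this holds at all `p + s tt`.  With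
`r = √(v p)` the curve `c s = p + (s / r) tt` is a geodesic: `g.val (c s) (c' s) w` does not depend
on `s` (translation invariance) and `fderiv g.val (c s) w tt tt = fderiv v (c s) w = 0`; it has unit
speed.  By `Minz`, `gd g p (p + T tt) = r T` for `T ≥ 0`.  For every `q`:
`gd g p (p + T tt) ≤ gd g p q + gd g q (q + T tt) + gd g (q + T tt) (p + T tt)
≤ gd g p q + √(v q) T + gd g q p` (`StGd` for the curve `q + s tt`; `StRotD` with `rot T g = g`).
Divide by `T → ∞`: `r ≤ √(v q)`.  As `p` is a maximum point, `v` is constant. -/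
def StCst : Prop := ∀ (m : ℕ) (G : Type) [Group G] [MulAction G (E (m + 1))], Circ m G →
  ∀ g : Form (m + 1), Riem g → Inv G g → Minz g → TInv g →
    ∃ c : ℝ, 0 < c ∧ ∀ p, g.val p tt tt = c ^ 2

/-- Long circles are minimizing.  As in `StCst` every curve `p + (s / c) tt` is a unit speed geodesic
(now `v` is constant, so `fderiv v = 0` everywhere), so `gd g p (p + T tt) = c T` for `T ≥ 0`. -/
def StMin : Prop := ∀ (m : ℕ) (g : Form (m + 1)), Riem g → Minz g → TInv g → ∀ c : ℝ, 0 < c →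
  (∀ p, g.val p tt tt = c ^ 2) → ∀ (p : E (m + 1)) (T : ℝ), 0 ≤ T → gd g p (p + T • tt) = c * T

/-- Sloped segments.  Let `w = q - p` and `γ s = p + s w + (a + T s) tt`, a curve from `p + a tt` to
`q + (a + T) tt`.  With `b s = g.val (p + s w) tt w` and `e s = g.val (p + s w) w w`
`g.val (γ s) (γ' s) (γ' s) = c^2 T^2 + 2 T b s + e s = (c T + b s / c)^2 + (e s - (b s)^2 / c^2)`
(translation invariance).  `b`, `e` are bounded by some `K` on `[0, 1]` (continuity), and
`√(A^2 + ρ) ≤ A + ρ / (2 A)` for `A > 0`, `ρ ≥ - A^2` (or simply `√y ≤ A / 2 + y / (2 A)`), with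
`A = c T + b s / c ≥ c T / 2` for large `T`.  Integrate (`StGd` for the curve `γ`). -/
def StSlope : Prop := ∀ (m : ℕ) (g : Form (m + 1)), Riem g → TInv g → ∀ c : ℝ, 0 < c →
  (∀ p, g.val p tt tt = c ^ 2) → ∀ p q : E (m + 1), ∃ K T₀ : ℝ, 0 < T₀ ∧ 0 ≤ K ∧ ∀ T, T₀ ≤ T →
    ∀ a : ℝ, gd g (p + a • tt) (q + (a + T) • tt) ≤ c * T + seg g p q / c + K / T

/-- Triangles.  By `StMin` and the triangle inequality (`StGd`) with the points `p`, `q + T tt`,
`r + 2 T tt`, `p + 3 T tt` and `StSlope`: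
`3 c T ≤ 3 c T + (seg p q + seg q r + seg r p) / c + K / T`; let `T → ∞`: the sum `Σ` is `≥ 0`.  The
same for the triangle `p, r, q`; since `seg g q p = - seg g p q` (substitute `s ↦ 1 - s`), `Σ ≤ 0`. -/
def StTri : Prop := ∀ (m : ℕ) (g : Form (m + 1)), Riem g → Minz g → TInv g → ∀ c : ℝ, 0 < c →
  (∀ p, g.val p tt tt = c ^ 2) → ∀ p q r : E (m + 1), seg g p q + seg g q r + seg g r p = 0

/-- Potential.  `f p = ∫ s in 0..1, β (s p) p`.  The triangle `0, p, p + w` gives
`f (p + w) - f p = ∫ s in 0..1, β (p + s w) w` (the segment backwards changes the sign).  So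
`|f (p + w) - f p - β p w| ≤ sup_s ‖β (p + s w) - β p‖ ‖w‖ = o(‖w‖)`.  The derivative `β` of `f` is
smooth, so `f` is smooth (`contDiff_infty_iff_fderiv`). -/
def StPot : Prop := ∀ (n : ℕ) (β : E n → E n →L[ℝ] ℝ), ContDiff ℝ ∞ β →
  (∀ p q r : E n, (∫ s in (0 : ℝ)..1, β (p + s • (q - p)) (q - p)) +
    (∫ s in (0 : ℝ)..1, β (q + s • (r - q)) (r - q)) +
    (∫ s in (0 : ℝ)..1, β (r + s • (p - r)) (p - r)) = 0) →
  ∃ f : E n → ℝ, ContDiff ℝ ∞ f ∧ ∀ p, HasFDerivAt f (β p) p

/-- Splitting of invariant metrics.  `c` from `StCst`; `β p u = g.val p tt u / c` is a smooth one form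
with the triangle property (`StTri`), so it is the derivative of a smooth `f` (`StPot`).
`β p tt = c`, `β (p + s tt) = β p`; so `f (p + s tt) - f p = c s` (derivative in `s`).
`β (a p) (dac a p u) = β p u` (invariance of `g` and `dac a p tt = tt`, `StRotI`), so `f (a p) - f p` has
derivative `0` in `p` and is constant.  `h = g - β ⊗ β` is smooth, symmetric, invariant,
`h (tt, u) = g (tt, u) - c β u = 0`, and `h (u, u) = g (u, u) - g (tt, u)^2 / g (tt, tt) ≥ 0`
(Cauchy-Schwarz for the form: the quadratic polynomial `g (u + λ tt, u + λ tt) ≥ 0`). -/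
def StSpl : Prop := ∀ (m : ℕ) (G : Type) [Group G] [MulAction G (E (m + 1))], Circ m G →
  ∀ g : Form (m + 1), Riem g → Inv G g → Minz g → TInv g → Splits G g

/-- Young's inequality.  `ρ^(2k) ≤ (2k/(m+k)) ρ^(m+k) + (m-k)/(m+k)` and
`ρ^2 ≤ (2/(m+k)) ρ^(m+k) + (m+k-2)/(m+k)` (weighted inequality of the arithmetic and geometric
means, `Real.geom_mean_le_arith_mean2_weighted`, for `ρ^(m+k)` and `1`); add `m` times the second. -/
def StYng : Prop := ∀ (m : ℕ) (k ρ : ℝ), 2 ≤ m → 0 ≤ k → k ≤ m → 0 < ρ →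
  ρ ^ (2 * k) + m * ρ ^ 2 ≤ 2 * ρ ^ (m + k : ℝ) + (m - 1)

/-- Matrix identities.  `P = τ aᵀ` (`Matrix.vecMulVec τ a`) satisfies `P^2 = P`, `(a aᵀ) P = a aᵀ`,
`H P = 0`, `tr P = 1`.  So with `A = x a aᵀ + y H` and `B = x' a aᵀ + y' H`:
`B = A ((x'/x) P + (y'/y) (1 - P))`.  The determinant of `(x'/x) P + (y'/y) (1 - P)
= (y'/y) (1 + ((x' y) / (x y') - 1) P)` is `(y'/y)^(m+1) (x' y) / (x y')
= (x'/x) (y'/y)^m` (`Matrix.det_one_add_replicateCol_mul_replicateRow` or a similar lemma for rank one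
updates). -/
def StMat : Prop := ∀ (m : ℕ) (a τ : Fin (m + 1) → ℝ) (H : Matrix (Fin (m + 1)) (Fin (m + 1)) ℝ)
  (x y x' y' : ℝ), 0 < x → 0 < y → 0 < x' → 0 < y' → a ⬝ᵥ τ = 1 → H.mulVec τ = 0 →
  (x • Matrix.vecMulVec a a + y • H).det ≠ 0 →
  ((x • Matrix.vecMulVec a a + y • H)⁻¹ * (x' • Matrix.vecMulVec a a + y' • H)).trace =
    x' / x + m * (y' / y) ∧
  (x' • Matrix.vecMulVec a a + y' • H).det =
    (x' / x) * (y' / y) ^ m * (x • Matrix.vecMulVec a a + y • H).det

/-- The metrics of the family: `g = B^(2k) α ⊗ α + B^2 h` with `α`, `h` invariant under rotations,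
`α (tt) = 1` and `h (tt, ·) = 0` -/
def Fam {m : ℕ} (k : ℝ) (g : Form (m + 1)) : Prop :=
  ∃ (B : E (m + 1) → ℝ) (α : E (m + 1) → E (m + 1) →L[ℝ] ℝ)
    (h : E (m + 1) → E (m + 1) →L[ℝ] E (m + 1) →L[ℝ] ℝ), (∀ p, 0 < B p) ∧
    (∀ (p : E (m + 1)) (s : ℝ), α (p + s • tt) = α p) ∧
    (∀ (p : E (m + 1)) (s : ℝ), h (p + s • tt) = h p) ∧ (∀ p, α p tt = 1) ∧
    (∀ p u, h p tt u = 0) ∧ (∀ p u, h p u tt = 0) ∧
    ∀ p u v, g.val p u v = B p ^ (2 * k) * (α p u * α p v) + B p ^ 2 * h p u v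

/-- Energy density in the family.  Fix `p`, `s` and put `ρ = B (p + s tt) / B p`.  The matrices
`gm g p`, `gm g (p + s tt)` are `x a aᵀ + y H`, `x' a aᵀ + y' H` with `a_i = α p (ee i)`,
`H_ij = h p (ee i) (ee j)`, `τ = Pi.single (Fin.last m) 1`, `x = B^(2k)`, `y = B^2` (at `p` and at
`p + s tt`), so by `StMat` `tr g (rot s g) p = ρ^(2k) + m ρ^2` and
`dens g (p + s tt) = ρ^(k+m) dens g p` (`dens` is the square root of the determinant).  Use `StYng`;
`dens g p ≥ 0`. -/
def StAlg : Prop := ∀ (m : ℕ) (k : ℝ) (g : Form (m + 1)), 2 ≤ m → 0 ≤ k → k ≤ m → Riem g →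
  Fam k g → ∀ (p : E (m + 1)) (s : ℝ),
    tr g (rot s g) p * dens g p ≤ 2 * dens g (p + s • tt) + (m - 1) * dens g p

/-- Rotations preserve the total volume.  Substitute `q = p + s tt` (translations preserve Lebesgue
measure): the left side is `∫ χ' dens g` with `χ' q = χ (q - s tt)`.  By `comm`, `χ'` is again an
invariant partition of unity (`PU`).  Both integrals agree by `StUnf` on `R^(m+1)` with the measure
`dens g dx` (invariant by `StDens`), `a = ofReal χ'`, `b = ofReal χ`, `F = 1` (compare the proof of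
`StFD` in `MP_25cd3b_gt/M/I_FD`; `G` is countable by `StCnt`). -/
def StTrn : Prop := ∀ (m : ℕ) (G : Type) [Group G] [MulAction G (E (m + 1))], Circ m G →
  ∀ g : Form (m + 1), Riem g → Inv G g → ∀ χ : E (m + 1) → ℝ, PU G χ → ∀ s : ℝ,
    ∫ p, χ p * dens g (p + s • tt) = ∫ p, χ p * dens g p

/-! ### the theorems -/

/-- If the rotations do not have more energy than the identity then the universal covering splits. -/
def StThE : Prop := ∀ (m : ℕ) (G : Type) [Group G] [MulAction G (E (m + 1))], Circ m G →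
  ∀ g : Form (m + 1), Riem g → Inv G g → Minz g → ∀ D : Set (E (m + 1)), MeasurableSet D →
  (∀ x : E (m + 1), ∃! a : G, a • x ∈ D) →
  (∀ s : ℝ, ∫ p in D, tr g (rot s g) p * dens g p ≤ (m + 1) * ∫ p in D, dens g p) →
  TInv g ∧ Splits G g

/-- The family. -/
def StThF : Prop := ∀ (m : ℕ) (G : Type) [Group G] [MulAction G (E (m + 1))], Circ m G →
  ∀ g : Form (m + 1), Riem g → Inv G g → Minz g → ∀ k : ℝ, 2 ≤ m → 0 ≤ k → k ≤ m →
  Fam k g → TInv g ∧ Splits G g

end Pool.Agent.NCP
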