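import Mathlib
import Pool.Agent.Work.MP_13b5d9_gt.E.Stmts

set_option autoImplicit false

/-!
# MP_13b5d9_gt, item Alg: energy density of the rotations in the family
-/

open MeasureTheory Set Filter Topology
open scoped ContDiff ENNReal
open Pool.Agent.MLS

namespace Pool.Agent.NCP

namespace IAlg

/-- the matrix of a metric of the family -/
theorem gm_fam {m : ℕ} (k : ℝ) (g : Form (m + 1)) (B : E (m + 1) → ℝ)
    (α : E (m + 1) → E (m + 1) →L[ℝ] ℝ) (h : E (m + 1) → E (m + 1) →L[ℝ] E (m + 1) →L[ℝ] ℝ)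
    (hg : ∀ p u v, g.val p u v = B p ^ (2 * k) * (α p u * α p v) + B p ^ 2 * h p u v)
    (p : E (m + 1)) :
    gm g p = B p ^ (2 * k) • Matrix.vecMulVec (fun i => α p (ee i)) (fun i => α p (ee i)) +
      B p ^ 2 • Matrix.of (fun i j => h p (ee i) (ee j)) := by
  ext i j
  simp only [gm, Matrix.of_apply, Matrix.add_apply, Matrix.smul_apply, Matrix.vecMulVec_apply,
    smul_eq_mul]
  exact hg p (ee i) (ee j)

end IAlg

open IAlg in
/-- Item Alg. -/
theorem pr_Alg (h0 : Pool.Agent.MLS.StDens) (h1 : StYng) (h2 : StMat) : StAlg := by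
  intro m k g hm hk hkm hR hF p s
  obtain ⟨B, α, h, hB, hα, hh, hαt, htu, hut, hg⟩ := hF
  obtain ⟨hpos, -, -⟩ := h0 (m + 1) g hR
  have e1 := gm_fam k g B α h hg p
  have e2 : gm g (p + s • tt) =
      B (p + s • tt) ^ (2 * k) • Matrix.vecMulVec (fun i => α p (ee i)) (fun i => α p (ee i)) +
      B (p + s • tt) ^ 2 • Matrix.of (fun i j => h p (ee i) (ee j)) := by
    have e3 := gm_fam k g B α h hg (p + s • tt)
    rw [hα p s, hh p s] at e3
    exact e3
  set a : Fin (m + 1) → ℝ := fun i => α p (ee i) with ha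
  set H : Matrix (Fin (m + 1)) (Fin (m + 1)) ℝ := Matrix.of (fun i j => h p (ee i) (ee j)) with hH
  have hBp : 0 < B p := hB p
  have hBq : 0 < B (p + s • tt) := hB _
  have hat : a ⬝ᵥ (Pi.single (Fin.last m) (1 : ℝ)) = 1 := by
    rw [dotProduct_single, mul_one]
    exact hαt p
  have hHt : H.mulVec (Pi.single (Fin.last m) (1 : ℝ)) = 0 := by
    rw [Matrix.mulVec_single_one]
    funext i
    exact hut p (ee i)
  have hdet : (B p ^ (2 * k) • Matrix.vecMulVec a a + B p ^ 2 • H).det ≠ 0 := by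
    rw [← e1]
    exact (hpos p).ne'
  obtain ⟨htr, hdt⟩ := h2 m a (Pi.single (Fin.last m) 1) H (B p ^ (2 * k)) (B p ^ 2)
    (B (p + s • tt) ^ (2 * k)) (B (p + s • tt) ^ 2) (Real.rpow_pos_of_pos hBp _) (by positivity)
    (Real.rpow_pos_of_pos hBq _) (by positivity) hat hHt hdet
  rw [← e1, ← e2] at htr
  rw [← e1, ← e2] at hdt
  set ρ : ℝ := B (p + s • tt) / B p with hρ
  have hρ0 : 0 < ρ := div_pos hBq hBp
  have r1 : B (p + s • tt) ^ (2 * k) / B p ^ (2 * k) = ρ ^ (2 * k) :=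
    (Real.div_rpow hBq.le hBp.le _).symm
  have r2 : B (p + s • tt) ^ 2 / B p ^ 2 = ρ ^ 2 := (div_pow _ _ 2).symm
  rw [r1, r2] at htr hdt
  have htr2 : tr g (rot s g) p = ρ ^ (2 * k) + m * ρ ^ 2 := htr
  have hdens : dens g (p + s • tt) = ρ ^ (m + k : ℝ) * dens g p := by
    unfold dens
    rw [hdt]
    have h3 : ρ ^ (2 * k) * (ρ ^ 2) ^ m = ρ ^ (m + k : ℝ) * ρ ^ (m + k : ℝ) := by
      rw [← Real.rpow_add hρ0, ← pow_mul, ← Real.rpow_natCast, ← Real.rpow_add hρ0]
      congr 1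
      push_cast
      ring
    rw [h3, Real.sqrt_mul (mul_self_nonneg _), Real.sqrt_mul_self (Real.rpow_nonneg hρ0.le _)]
  have hd0 : 0 ≤ dens g p := Real.sqrt_nonneg _
  rw [htr2, hdens]
  have h4 := mul_le_mul_of_nonneg_right (h1 m k ρ hm hk hkm hρ0) hd0
  linarith

end Pool.Agent.NCP
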