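import Pool.Agent.Work.MP_13b5d9_gt.E.Stmts

set_option autoImplicit false

/-!
# MP_13b5d9_gt, item Cst: the circles of an invariant metric without conjugate points have constant
length
-/

open MeasureTheory Set Filter Topology
open scoped ContDiff ENNReal
open Pool.Agent.MLS

namespace Pool.Agent.NCP

namespace ICst

theorem tt_ne {m : ℕ} : (tt : E (m + 1)) ≠ 0 := by
  intro h
  have h1 : (tt : E (m + 1)) (Fin.last m) = 0 := by rw [h]; rfl
  simp [tt, ee] at h1

/-- evaluation at `tt`, `tt` -/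
noncomputable def ev (m : ℕ) : (E (m + 1) →L[ℝ] E (m + 1) →L[ℝ] ℝ) →L[ℝ] ℝ :=
  (ContinuousLinearMap.apply ℝ ℝ (tt : E (m + 1))).comp
    (ContinuousLinearMap.apply ℝ (E (m + 1) →L[ℝ] ℝ) (tt : E (m + 1)))

theorem ev_apply {m : ℕ} (b : E (m + 1) →L[ℝ] E (m + 1) →L[ℝ] ℝ) : ev m b = b tt tt := rfl

theorem fd {m : ℕ} (g : Form (m + 1)) (x : E (m + 1)) :
    HasFDerivAt (fun p => g.val p tt tt) ((ev m).comp (fderiv ℝ g.val x)) x := by
  have h1 : HasFDerivAt g.val (fderiv ℝ g.val x) x :=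
    ((g.smooth.differentiable (by simp)) x).hasFDerivAt
  have h2 := (h1.clm_apply (hasFDerivAt_const (tt : E (m + 1)) x)).clm_apply
    (hasFDerivAt_const (tt : E (m + 1)) x)
  refine h2.congr_fderiv ?_
  ext w
  simp [ev_apply]

theorem dc {m : ℕ} (p : E (m + 1)) (r t : ℝ) :
    HasDerivAt (fun s : ℝ => p + (s / r) • (tt : E (m + 1))) (r⁻¹ • tt) t := by
  have h1 : HasDerivAt (fun s : ℝ => s / r) (r⁻¹) t := by
    simpa [div_eq_mul_inv] using (hasDerivAt_id t).mul_const r⁻¹
  simpa using (h1.smul_const (tt : E (m + 1))).const_add p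

theorem derivc {m : ℕ} (p : E (m + 1)) (r : ℝ) :
    deriv (fun s : ℝ => p + (s / r) • (tt : E (m + 1))) = fun _ => r⁻¹ • tt :=
  funext fun t => (dc p r t).deriv

/-- the circles through the points where the length is critical are geodesics -/
theorem geo {m : ℕ} (g : Form (m + 1)) (hT : TInv g) (p : E (m + 1))
    (hc : ∀ s : ℝ, fderiv ℝ (fun q => g.val q tt tt) (p + s • tt) = 0) (r : ℝ) :
    IsGeo g (fun s : ℝ => p + (s / r) • (tt : E (m + 1))) := by
  refine ⟨?_, ?_⟩
  · exact contDiff_const.add ((contDiff_id.div_const r).smul contDiff_const)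
  · intro t w
    simp only [derivc]
    have h1 : ∀ s : ℝ, g.val (p + (s / r) • tt) = g.val p := fun s => hT p _
    have h2 : (fun s : ℝ => g.val (p + (s / r) • tt) (r⁻¹ • tt) w) =
        fun _ => g.val p (r⁻¹ • tt) w := funext fun s => by rw [h1 s]
    have h3 : (fderiv ℝ g.val (p + (t / r) • tt) w) tt tt = 0 := by
      have h4 := hc (t / r)
      rw [(fd g (p + (t / r) • tt)).fderiv] at h4
      have h5 := congrArg (fun L : E (m + 1) →L[ℝ] ℝ => L w) h4
      simpa [ev_apply] using h5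
    have h6 : (1 / 2 : ℝ) * fderiv ℝ g.val (p + (t / r) • tt) w (r⁻¹ • tt) (r⁻¹ • tt) = 0 := by
      simp only [map_smul, smul_apply, smul_eq_mul, h3, mul_zero]
    rw [h2, h6]
    exact hasDerivAt_const t _

theorem unit {m : ℕ} (g : Form (m + 1)) (hT : TInv g) (p : E (m + 1)) (r : ℝ) (hr : 0 < r)
    (hp : g.val p tt tt = r ^ 2) (t : ℝ) :
    g.val (p + (t / r) • tt) (r⁻¹ • (tt : E (m + 1))) (r⁻¹ • tt) = 1 := by
  rw [hT]
  simp only [map_smul, smul_apply, smul_eq_mul, hp]
  field_simp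

/-- lengths of the circles -/
theorem len {m : ℕ} (hGd : StGd) (g : Form (m + 1)) (hT : TInv g) (q : E (m + 1)) (T : ℝ)
    (h0 : 0 ≤ T) : gd g q (q + T • tt) ≤ Real.sqrt (g.val q tt tt) * T := by
  have hd : ∀ t : ℝ, HasDerivAt (fun s : ℝ => q + s • (tt : E (m + 1))) tt t := by
    intro t
    simpa using ((hasDerivAt_id t).smul_const (tt : E (m + 1))).const_add q
  have hd' : deriv (fun s : ℝ => q + s • (tt : E (m + 1))) = fun _ => tt :=
    funext fun t => (hd t).deriv
  have h1 := (hGd (m + 1) g).2.2.2 (fun s : ℝ => q + s • (tt : E (m + 1))) 0 T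
    (contDiff_const.add (contDiff_id.smul contDiff_const)) h0
  simp only [zero_smul, add_zero, hd'] at h1
  refine h1.trans (le_of_eq ?_)
  have h2 : ∀ t : ℝ, nrm g (q + t • tt) (tt : E (m + 1)) = Real.sqrt (g.val q tt tt) := by
    intro t
    rw [nrm, hT]
  simp only [h2, intervalIntegral.integral_const, smul_eq_mul, sub_zero]
  ring

theorem rot_eq {m : ℕ} (g : Form (m + 1)) (hT : TInv g) (s : ℝ) : rot s g = g := by
  refine Form.ext ?_
  funext p
  exact hT p s

end ICst

theorem pr_Cst (hGd : StGd) (hRotI : StRotI) (hRotD : StRotD) : StCst := by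
  intro m G _ _ hG g hR hI hM hT
  have hpos : ∀ p, 0 < g.val p tt tt := fun p => hR p tt ICst.tt_ne
  have hcont : Continuous fun p => g.val p tt tt := by
    refine continuous_iff_continuousAt.2 fun x => (ICst.fd g x).continuousAt
  have hinv : ∀ (a : G) (p : E (m + 1)), g.val (a • p) tt tt = g.val p tt tt := by
    intro a p
    have h1 := hI a p tt tt
    rwa [(hRotI m G hG).1 a p] at h1
  obtain ⟨K, hK, hK1⟩ := hG.coc.cocompact
  have hne : K.Nonempty := by
    obtain ⟨a, ha⟩ := hK1 0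
    exact ⟨_, ha⟩
  obtain ⟨p, -, hp⟩ := hK.exists_isMaxOn hne hcont.continuousOn
  have hmax : ∀ q, g.val q tt tt ≤ g.val p tt tt := by
    intro q
    obtain ⟨a, ha⟩ := hK1 q
    rw [← hinv a q]
    exact hp ha
  have hcrit : ∀ s : ℝ, fderiv ℝ (fun q => g.val q tt tt) (p + s • tt) = 0 := by
    intro s
    refine IsLocalMax.fderiv_eq_zero (Eventually.of_forall fun q => ?_)
    change g.val q tt tt ≤ g.val (p + s • tt) tt tt
    rw [hT]
    exact hmax q
  obtain ⟨r, hr, hr2⟩ : ∃ r : ℝ, 0 < r ∧ g.val p tt tt = r ^ 2 :=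
    ⟨Real.sqrt (g.val p tt tt), Real.sqrt_pos.2 (hpos p), (Real.sq_sqrt (hpos p).le).symm⟩
  have hdist : ∀ T : ℝ, 0 ≤ T → gd g p (p + T • tt) = r * T := by
    intro T h0
    have h1 := hM _ (ICst.geo g hT p hcrit r) (fun t => by
      simp only [ICst.derivc]
      exact ICst.unit g hT p r hr hr2 t) 0 (r * T)
    simp only [zero_div, zero_smul, add_zero, mul_div_cancel_left₀ T hr.ne', zero_sub, abs_neg,
      abs_of_nonneg (mul_nonneg hr.le h0)] at h1
    exact h1
  obtain ⟨-, hPM, -, -⟩ := hGd (m + 1) g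
  refine ⟨r, hr, fun q => le_antisymm (hr2 ▸ hmax q) ?_⟩
  have key : ∀ T : ℝ, 0 ≤ T →
      r * T ≤ gd g p q + Real.sqrt (g.val q tt tt) * T + gd g q p := by
    intro T h0
    have h1 := hPM.tri p q (p + T • tt)
    have h2 := hPM.tri q (q + T • tt) (p + T • tt)
    have h3 := ICst.len hGd g hT q T h0
    have h4 : gd g (q + T • tt) (p + T • tt) = gd g q p := by
      rw [← hRotD m g T q p, ICst.rot_eq g hT T]
    rw [hdist T h0] at h1
    linarith
  have hle : r ≤ Real.sqrt (g.val q tt tt) := by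
    by_contra hlt
    push Not at hlt
    have hD : 0 ≤ gd g p q + gd g q p := add_nonneg (hPM.nonneg _ _) (hPM.nonneg _ _)
    have hpos' : 0 < r - Real.sqrt (g.val q tt tt) := sub_pos.2 hlt
    have h5 := key ((gd g p q + gd g q p + 1) / (r - Real.sqrt (g.val q tt tt)))
      (div_nonneg (by linarith) hpos'.le)
    have h6 : (r - Real.sqrt (g.val q tt tt)) *
        ((gd g p q + gd g q p + 1) / (r - Real.sqrt (g.val q tt tt))) =
        gd g p q + gd g q p + 1 := by
      field_simp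
    nlinarith
  calc r ^ 2 ≤ (Real.sqrt (g.val q tt tt)) ^ 2 := pow_le_pow_left₀ hr.le hle 2
    _ = g.val q tt tt := Real.sq_sqrt (hpos q).le

end Pool.Agent.NCP
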