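import Pool.Agent.Work.MP_13b5d9_gt.E.Stmts

/-! MP_13b5d9_gt, block E, item Mat (helper28): matrix identities. -/

set_option autoImplicit false

open MeasureTheory Set Filter Topology
open scoped ContDiff ENNReal
open Pool.Agent.MLS

namespace Pool.Agent.NCP

namespace IMat

/-- determinant of a rank one update of a multiple of the identity -/
theorem det_upd (m : ℕ) (a τ : Fin (m + 1) → ℝ) (r d : ℝ) (hr : r ≠ 0) (h : a ⬝ᵥ τ = 1) :
    (r • (1 : Matrix (Fin (m + 1)) (Fin (m + 1)) ℝ) + d • Matrix.vecMulVec τ a).det = r ^ m * (r + d) := by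
  have h1 : r • (1 : Matrix (Fin (m + 1)) (Fin (m + 1)) ℝ) + d • Matrix.vecMulVec τ a
      = r • (1 + Matrix.vecMulVec ((d / r) • τ) a) := by
    rw [smul_add, Matrix.smul_vecMulVec, smul_smul, mul_div_cancel₀ _ hr]
  rw [h1, Matrix.det_smul, Matrix.vecMulVec_eq Unit, Matrix.det_one_add_replicateCol_mul_replicateRow,
    dotProduct_smul, h, Fintype.card_fin, pow_succ, smul_eq_mul]
  field_simp

end IMat

/-- Item Mat. -/
theorem pr_Mat : StMat := by
  intro m a τ H x y x' y' hx hy hx' hy' haτ hH hdet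
  set A := x • Matrix.vecMulVec a a + y • H with hA
  have hAP : A * Matrix.vecMulVec τ a = x • Matrix.vecMulVec a a := by
    rw [Matrix.mul_vecMulVec, hA, Matrix.add_mulVec, Matrix.smul_mulVec, Matrix.smul_mulVec, hH, smul_zero, add_zero,
      Matrix.vecMulVec_mulVec, haτ]
    simp [Matrix.smul_vecMulVec]
  have hB : x' • Matrix.vecMulVec a a + y' • H
      = A * ((y' / y) • (1 : Matrix (Fin (m + 1)) (Fin (m + 1)) ℝ) + (x' / x - y' / y) • Matrix.vecMulVec τ a) := by
    rw [mul_add, mul_smul_comm, mul_one, mul_smul_comm, hAP, hA, smul_add, smul_smul, smul_smul, smul_smul,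
      div_mul_cancel₀ _ hy.ne']
    have : (x' / x - y' / y) * x = x' - y' / y * x := by
      field_simp
    rw [this, sub_smul]
    abel
  have hu : IsUnit A.det := isUnit_iff_ne_zero.2 hdet
  refine ⟨?_, ?_⟩
  · rw [hB, Matrix.nonsing_inv_mul_cancel_left _ _ hu, Matrix.trace_add, Matrix.trace_smul, Matrix.trace_smul,
      Matrix.trace_one, Matrix.trace_vecMulVec, dotProduct_comm, haτ, Fintype.card_fin]
    push_cast
    simp only [smul_eq_mul]
    ring
  · rw [hB, Matrix.det_mul, IMat.det_upd m a τ _ _ (by positivity) haτ]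
    ring

end Pool.Agent.NCP
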