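import Mathlib
import Pool.Agent.Work.MP_13b5d9_gt.E.Stmts

set_option autoImplicit false

/-!
# MP_13b5d9_gt, block E: long circles are minimizing
-/

open MeasureTheory Set Filter Topology
open scoped ContDiff ENNReal
open Pool.Agent.MLS

namespace Pool.Agent.NCP

namespace IMin

variable {m : ℕ}

/-- the derivative of the circle -/
theorem hd (p : E (m + 1)) (c t : ℝ) :
    HasDerivAt (fun s : ℝ => p + (s / c) • (tt : E (m + 1))) ((1 / c) • (tt : E (m + 1))) t := by
  have h1 : HasDerivAt (fun s : ℝ => s / c) (1 / c) t := (hasDerivAt_id t).div_const c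
  have h2 := (h1.smul_const (tt : E (m + 1))).const_add p
  exact h2

theorem hdd (p : E (m + 1)) (c : ℝ) :
    deriv (fun s : ℝ => p + (s / c) • (tt : E (m + 1))) = fun _ => (1 / c) • (tt : E (m + 1)) := by
  funext t
  exact (hd p c t).deriv

/-- the derivative of the constant function `q ↦ g (tt, tt)` -/
theorem fd (g : Form (m + 1)) (r : ℝ) (h : ∀ p, g.val p tt tt = r) (p w : E (m + 1)) :
    fderiv ℝ g.val p w tt tt = 0 := by
  have hg : DifferentiableAt ℝ g.val p := (g.smooth.differentiable (by simp)) p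
  have h1 := (hg.hasFDerivAt.clm_apply (hasFDerivAt_const (tt : E (m + 1)) p)).clm_apply
    (hasFDerivAt_const (tt : E (m + 1)) p)
  have h2 : HasFDerivAt (fun q => g.val q tt tt) (0 : E (m + 1) →L[ℝ] ℝ) p := by
    have : (fun q => g.val q tt tt) = fun _ => r := funext h
    rw [this]
    exact hasFDerivAt_const r p
  have h3 := h1.unique h2
  have h4 := congrArg (fun L : E (m + 1) →L[ℝ] ℝ => L w) h3
  simpa using h4

theorem bil (B : E (m + 1) →L[ℝ] E (m + 1) →L[ℝ] ℝ) (a : ℝ) (u : E (m + 1)) :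
    B (a • u) (a • u) = a * (a * B u u) := by
  rw [map_smul, map_smul]
  rfl

/-- the circle is a geodesic -/
theorem geo (g : Form (m + 1)) (hT : TInv g) (c : ℝ) (h : ∀ p, g.val p tt tt = c ^ 2)
    (p : E (m + 1)) : IsGeo g (fun s : ℝ => p + (s / c) • (tt : E (m + 1))) := by
  refine ⟨?_, ?_⟩
  · fun_prop
  · intro t w
    rw [hdd]
    have e1 : (fun s : ℝ => g.val (p + (s / c) • (tt : E (m + 1))) ((1 / c) • tt) w) =
        fun _ => g.val p ((1 / c) • tt) w := by
      funext s
      rw [hT]
    have e2 : 1 / 2 * fderiv ℝ g.val (p + (t / c) • (tt : E (m + 1))) w ((1 / c) • tt)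
        ((1 / c) • tt) = 0 := by
      rw [bil, fd g _ h, mul_zero, mul_zero, mul_zero]
    rw [e1]
    exact e2 ▸ hasDerivAt_const t _

end IMin

theorem pr_Min : StMin := by
  intro m g _ hM hT c hc h p T hT0
  have h1 := hM _ (IMin.geo g hT c h p) (by
    intro t
    rw [IMin.hdd, hT, IMin.bil, h]
    field_simp) 0 (c * T)
  have e : p + (c * T / c) • (tt : E (m + 1)) = p + T • tt := by
    rw [mul_div_cancel_left₀ T hc.ne']
  rw [zero_div, zero_smul, add_zero, e, zero_sub, abs_neg,
    abs_of_nonneg (mul_nonneg hc.le hT0)] at h1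
  exact h1

end Pool.Agent.NCP
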