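import Pool.Agent.Work.MP_13b5d9_gt.E.Stmts

set_option autoImplicit false

/-!
# Item Move: the rotations move points by a bounded distance
-/

open MeasureTheory Set Filter Topology
open scoped ContDiff ENNReal
open Pool.Agent.MLS

namespace Pool.Agent.NCP

/-- Item Move. -/
theorem pr_Move (h1 : StCtsD) (h2 : StInvD) : StMove := by
  intro m G _ _ hC g hg s
  obtain ⟨K, hK, hcov⟩ := hC.coc.cocompact
  have hcont : Continuous (fun p : E (m + 1) => gd g p (p + s • tt)) :=
    (h1 (m + 1) g).comp (continuous_id.prodMk (continuous_id.add continuous_const))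
  obtain ⟨C, hCb⟩ := hK.exists_bound_of_continuousOn hcont.continuousOn
  refine ⟨max C 0, le_max_right _ _, fun p => ?_⟩
  obtain ⟨a, ha⟩ := hcov p
  have h3 := hCb (a • p) ha
  rw [← hC.comm a p s, (h2 (m + 1) G hC.coc g hg).2 a p (p + s • tt)] at h3
  exact ((le_abs_self _).trans h3).trans (le_max_left _ _)

end Pool.Agent.NCP
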