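import Mathlib
import Pool.Agent.Work.MP_13b5d9_gt.E.Stmts

set_option autoImplicit false

/-!
# MP_13b5d9_gt, block E, item Pot (helper9): potentials of one forms with the triangle property
-/

open MeasureTheory Set Filter Topology
open scoped ContDiff ENNReal
open Pool.Agent.MLS

namespace Pool.Agent.NCP

namespace IPot

/-- integral of the one form along the segment from `p` to `q` -/
noncomputable def sg {n : ℕ} (β : E n → E n →L[ℝ] ℝ) (p q : E n) : ℝ :=
  ∫ s in (0 : ℝ)..1, β (p + s • (q - p)) (q - p)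

theorem sg_symm {n : ℕ} (β : E n → E n →L[ℝ] ℝ) (p q : E n) : sg β q p = - sg β p q := by
  have h := intervalIntegral.integral_comp_sub_left (a := (0 : ℝ)) (b := 1)
    (fun s => β (p + s • (q - p)) (q - p)) 1
  rw [sub_zero, sub_self] at h
  rw [sg, sg, ← h, ← intervalIntegral.integral_neg]
  refine intervalIntegral.integral_congr fun s _ => ?_
  have h1 : q + s • (p - q) = p + (1 - s) • (q - p) := by
    rw [sub_smul, one_smul, smul_sub, smul_sub]
    abel
  have h2 : p - q = -(q - p) := by abel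
  show β (q + s • (p - q)) (p - q) = -(β (p + (1 - s) • (q - p)) (q - p))
  rw [h1, h2, map_neg]

theorem cont_seg {n : ℕ} {β : E n → E n →L[ℝ] ℝ} (hβ : Continuous β) (p w : E n) :
    Continuous (fun s : ℝ => β (p + s • w) w) := by
  have h1 : Continuous (fun s : ℝ => β (p + s • w)) := by
    refine hβ.comp ?_
    fun_prop
  exact h1.clm_apply continuous_const

theorem diff_eq {n : ℕ} {β : E n → E n →L[ℝ] ℝ}
    (htri : ∀ p q r : E n, sg β p q + sg β q r + sg β r p = 0) (p w : E n) :
    sg β 0 (p + w) - sg β 0 p = ∫ s in (0 : ℝ)..1, β (p + s • w) w := by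
  have h := htri 0 p (p + w)
  rw [sg_symm β 0 (p + w)] at h
  have h2 : sg β p (p + w) = ∫ s in (0 : ℝ)..1, β (p + s • w) w := by
    rw [sg, add_sub_cancel_left]
  rw [← h2]
  linarith

theorem hasF {n : ℕ} {β : E n → E n →L[ℝ] ℝ} (hβ : Continuous β)
    (htri : ∀ p q r : E n, sg β p q + sg β q r + sg β r p = 0) (p : E n) :
    HasFDerivAt (fun q => sg β 0 q) (β p) p := by
  rw [hasFDerivAt_iff_isLittleO_nhds_zero, Asymptotics.isLittleO_iff]
  intro ε hε
  obtain ⟨δ, hδ, h⟩ := Metric.continuousAt_iff.1 (hβ.continuousAt (x := p)) ε hε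
  filter_upwards [Metric.ball_mem_nhds (0 : E n) hδ] with w hw
  rw [mem_ball_zero_iff] at hw
  have h1 : sg β 0 (p + w) - sg β 0 p - β p w =
      ∫ s in (0 : ℝ)..1, (β (p + s • w) w - β p w) := by
    rw [intervalIntegral.integral_sub ((cont_seg hβ p w).intervalIntegrable _ _)
      intervalIntegrable_const, diff_eq htri, intervalIntegral.integral_const]
    simp
  show ‖sg β 0 (p + w) - sg β 0 p - β p w‖ ≤ ε * ‖w‖
  rw [h1]
  have h2 : ‖∫ s in (0 : ℝ)..1, (β (p + s • w) w - β p w)‖ ≤ ε * ‖w‖ * |1 - 0| := by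
    refine intervalIntegral.norm_integral_le_of_norm_le_const fun s hs => ?_
    rw [uIoc_of_le zero_le_one] at hs
    have h3 : dist (p + s • w) p < δ := by
      rw [dist_eq_norm, add_sub_cancel_left, norm_smul, Real.norm_eq_abs, abs_of_pos hs.1]
      calc s * ‖w‖ ≤ 1 * ‖w‖ := by gcongr; exact hs.2
        _ = ‖w‖ := one_mul _
        _ < δ := hw
    have h4 := h h3
    rw [dist_eq_norm] at h4
    calc ‖β (p + s • w) w - β p w‖ = ‖(β (p + s • w) - β p) w‖ := by
          rw [ContinuousLinearMap.sub_apply]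
      _ ≤ ‖β (p + s • w) - β p‖ * ‖w‖ := ContinuousLinearMap.le_opNorm _ _
      _ ≤ ε * ‖w‖ := by gcongr
  simpa using h2

end IPot

open IPot in
theorem pr_Pot : StPot := by
  intro n β hβ htri
  have hF := hasF hβ.continuous (β := β) htri
  refine ⟨fun q => sg β 0 q, ?_, hF⟩
  rw [contDiff_infty_iff_fderiv]
  refine ⟨fun p => (hF p).differentiableAt, ?_⟩
  have h : fderiv ℝ (fun q => sg β 0 q) = β := by
    funext p
    exact (hF p).fderiv
  rw [h]
  exact hβ

end Pool.Agent.NCP
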