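import Mathlib
import Pool.Agent.Work.MP_13b5d9_gt.E.Stmts

set_option autoImplicit false

/-!
# MP_13b5d9_gt, block E: distances of the pulled back form (`StRotD`)
-/

open MeasureTheory Set Filter Topology
open scoped ContDiff ENNReal
open Pool.Agent.MLS

namespace Pool.Agent.NCP

namespace IRotD

/-- translation by `s tt` maps paths of the pulled back form to paths of the form -/
theorem path_rot {m : ℕ} (g : Form (m + 1)) (s : ℝ) {x y : E (m + 1)} {l : ℝ}
    (h : PathLen (rot s g) x y l) : PathLen g (x + s • tt) (y + s • tt) l := by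
  induction h with
  | refl x => exact PathLen.refl _
  | cons c a b y l hc hab h ih =>
    have h1 : ContDiff ℝ 1 (fun t => c t + s • (tt : E (m + 1))) := hc.add contDiff_const
    have h2 := PathLen.cons (g := g) (fun t => c t + s • (tt : E (m + 1))) a b
      (y + s • tt) l h1 hab ih
    have h3 : (fun t => nrm g (c t + s • (tt : E (m + 1)))
        (deriv (fun t => c t + s • (tt : E (m + 1))) t)) =
        fun t => nrm (rot s g) (c t) (deriv c t) := by
      funext t
      rw [deriv_add_const]
      rfl
    have h4 : (∫ t in a..b, nrm g (c t + s • (tt : E (m + 1)))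
        (deriv (fun t => c t + s • (tt : E (m + 1))) t)) =
        ∫ t in a..b, nrm (rot s g) (c t) (deriv c t) := by
      rw [h3]
    rw [← h4]
    exact h2

/-- rotating back -/
theorem rot_neg {m : ℕ} (g : Form (m + 1)) (s : ℝ) : rot (-s) (rot s g) = g := by
  apply Form.ext
  funext p
  show g.val (p + (-s) • tt + s • tt) = g.val p
  congr 1
  rw [neg_smul]
  abel

/-- the paths of the pulled back form are the translated paths -/
theorem path_rot_iff {m : ℕ} (g : Form (m + 1)) (s : ℝ) (x y : E (m + 1)) (l : ℝ) :
    PathLen (rot s g) x y l ↔ PathLen g (x + s • tt) (y + s • tt) l := by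
  refine ⟨path_rot g s, fun h => ?_⟩
  rw [← rot_neg g s] at h
  have h1 := path_rot (rot s g) (-s) h
  have h2 : ∀ z : E (m + 1), z + s • tt + (-s) • tt = z := by
    intro z
    rw [neg_smul]
    abel
  rw [h2, h2] at h1
  exact h1

end IRotD

theorem pr_RotD : StRotD := by
  intro m g s x y
  unfold gd
  congr 1
  ext l
  exact IRotD.path_rot_iff g s x y l

end Pool.Agent.NCP
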