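import Mathlib
import Pool.Agent.Work.MP_13b5d9_gt.E.Stmts

set_option autoImplicit false

/-!
# Item RotI: rotations
-/

open MeasureTheory Set Filter Topology
open scoped ContDiff ENNReal
open Pool.Agent.MLS

namespace Pool.Agent.NCP

namespace IRotI

variable {m : ℕ} {G : Type} [Group G] [MulAction G (E (m + 1))]

theorem hasFDerivAt_act (hG : Circ m G) (a : G) (x : E (m + 1)) :
    HasFDerivAt (fun y : E (m + 1) => a • y) (dac a x) x :=
  ((hG.coc.smooth a).differentiable (by simp)).differentiableAt.hasFDerivAt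

theorem dac_e (hG : Circ m G) (a : G) (x : E (m + 1)) : dac a x tt = tt := by
  have h1 : HasDerivAt (fun s : ℝ => x + s • (tt : E (m + 1))) tt 0 := by
    have h := ((hasDerivAt_id (0 : ℝ)).smul_const (tt : E (m + 1))).const_add x
    simpa using h
  have h2 : HasDerivAt (fun s : ℝ => a • x + s • (tt : E (m + 1))) tt 0 := by
    have h := ((hasDerivAt_id (0 : ℝ)).smul_const (tt : E (m + 1))).const_add (a • x)
    simpa using h
  have h0 : HasFDerivAt (fun y : E (m + 1) => a • y) (dac a x)
      (x + (0 : ℝ) • (tt : E (m + 1))) := by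
    rw [zero_smul, add_zero]
    exact hasFDerivAt_act hG a x
  have h3 : HasDerivAt (fun s : ℝ => a • (x + s • (tt : E (m + 1)))) (dac a x tt) 0 :=
    h0.comp_hasDerivAt 0 h1
  have h4 : (fun s : ℝ => a • (x + s • (tt : E (m + 1)))) =
      fun s : ℝ => a • x + s • (tt : E (m + 1)) := by
    funext s
    exact hG.comm a x s
  rw [h4] at h3
  exact h3.unique h2

theorem dac_shift (hG : Circ m G) (a : G) (x : E (m + 1)) (s : ℝ) :
    dac a (x + s • (tt : E (m + 1))) = dac a x := by
  have h1 : HasFDerivAt (fun y : E (m + 1) => y + s • (tt : E (m + 1)))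
      (ContinuousLinearMap.id ℝ (E (m + 1))) x :=
    (hasFDerivAt_id x).add_const (s • (tt : E (m + 1)))
  have h2 : HasFDerivAt (fun y : E (m + 1) => a • (y + s • (tt : E (m + 1))))
      ((dac a (x + s • (tt : E (m + 1)))).comp (ContinuousLinearMap.id ℝ (E (m + 1)))) x :=
    (hasFDerivAt_act hG a (x + s • (tt : E (m + 1)))).comp x h1
  have h3 : HasFDerivAt (fun y : E (m + 1) => a • y + s • (tt : E (m + 1))) (dac a x) x :=
    (hasFDerivAt_act hG a x).add_const (s • (tt : E (m + 1)))
  have h4 : (fun y : E (m + 1) => a • (y + s • (tt : E (m + 1)))) =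
      fun y : E (m + 1) => a • y + s • (tt : E (m + 1)) := by
    funext y
    exact hG.comm a y s
  rw [h4, ContinuousLinearMap.comp_id] at h2
  exact h2.unique h3

end IRotI

open IRotI in
theorem pr_RotI : StRotI := by
  intro m G _ _ hG
  refine ⟨fun a x => dac_e hG a x, fun a x s => dac_shift hG a x s, ?_⟩
  intro g hg s
  refine ⟨fun a x u v => ?_, fun hR x v hv => hR (x + s • (tt : E (m + 1))) v hv⟩
  change g.val (a • x + s • (tt : E (m + 1))) (dac a x u) (dac a x v) =
    g.val (x + s • (tt : E (m + 1))) u v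
  rw [← hG.comm a x s, ← dac_shift hG a x s]
  exact hg a (x + s • (tt : E (m + 1))) u v

end Pool.Agent.NCP
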