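import Mathlib
import Pool.Agent.Work.MP_13b5d9_gt.E.Stmts

set_option autoImplicit false

/-!
# MP_13b5d9_gt, block E: long geodesics and rotations (item SegR)
-/

open MeasureTheory Set Filter Topology
open scoped ContDiff ENNReal
open Pool.Agent.MLS

namespace Pool.Agent.NCP

theorem pr_SegR (h1 : MLS.StGd) (h2 : StMove) : StSegR := by
  intro m G _ _ hG g _ hinv hmin s
  obtain ⟨C, hC0, hC⟩ := h2 m G hG g hinv s
  obtain ⟨_, hpm, _, hcurve⟩ := h1 (m + 1) g
  refine ⟨2 * C, by positivity, ?_⟩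
  intro c hc hu T hT
  have hT' : gd g (c 0) (c T) = T := by
    rw [hmin c hc hu 0 T, zero_sub, abs_neg, abs_of_nonneg hT]
  have hcd : ContDiff ℝ 1 (fun t => c t + s • (tt : E (m + 1))) :=
    (hc.smooth.of_le (by norm_num)).add contDiff_const
  have hlen := hcurve (fun t => c t + s • (tt : E (m + 1))) 0 T hcd hT
  have hderiv : deriv (fun t => c t + s • (tt : E (m + 1))) = deriv c := by
    funext t
    exact deriv_add_const (s • (tt : E (m + 1)))
  rw [hderiv] at hlen
  have hint : (∫ t in (0 : ℝ)..T, nrm (rot s g) (c t) (deriv c t)) =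
      ∫ t in (0 : ℝ)..T, nrm g ((fun t => c t + s • (tt : E (m + 1))) t) (deriv c t) := rfl
  rw [hint]
  have t1 := hpm.tri (c 0) (c 0 + s • tt) (c T)
  have t2 := hpm.tri (c 0 + s • tt) (c T + s • tt) (c T)
  have t3 := hpm.symm (c T + s • tt) (c T)
  have b1 := hC (c 0)
  have b2 := hC (c T)
  have hlen' : gd g (c 0 + s • tt) (c T + s • tt) ≤
      ∫ t in (0 : ℝ)..T, nrm g ((fun t => c t + s • (tt : E (m + 1))) t) (deriv c t) := hlen
  linarith

end Pool.Agent.NCP
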