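import Mathlib
import Pool.Agent.Work.MP_13b5d9_gt.E.Stmts

set_option autoImplicit false

/-!
# MP_13b5d9_gt, block NC, item Slope: sloped segments.  Author: helper82.
-/

open MeasureTheory Set Filter Topology
open scoped ContDiff ENNReal
open Pool.Agent.MLS

namespace Pool.Agent.NCP

namespace ISlope

/-- the curve -/
noncomputable def cur {m : ℕ} (p q : E (m + 1)) (a T : ℝ) (s : ℝ) : E (m + 1) :=
  p + s • (q - p) + (a + T * s) • tt

theorem cur_smooth {m : ℕ} (p q : E (m + 1)) (a T : ℝ) : ContDiff ℝ 1 (cur p q a T) := by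
  unfold cur
  fun_prop

theorem cur_deriv {m : ℕ} (p q : E (m + 1)) (a T s : ℝ) :
    deriv (cur p q a T) s = (q - p) + T • tt := by
  apply HasDerivAt.deriv
  have h1 : HasDerivAt (fun s : ℝ => s • (q - p)) ((1 : ℝ) • (q - p)) s :=
    (hasDerivAt_id s).smul_const _
  have h2 : HasDerivAt (fun s : ℝ => (a + T * s) • (tt : E (m + 1))) ((T * 1) • (tt : E (m + 1))) s :=
    (((hasDerivAt_id s).const_mul T).const_add a).smul_const _
  have h3 := (h1.const_add p).add h2
  rw [one_smul, mul_one] at h3
  exact h3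

theorem main (hGd : StGd) (m : ℕ) (g : Form (m + 1)) (hT : TInv g) (c : ℝ) (hc : 0 < c)
    (hv : ∀ p, g.val p tt tt = c ^ 2) (p q : E (m + 1)) : ∃ K T₀ : ℝ, 0 < T₀ ∧ 0 ≤ K ∧
    ∀ T, T₀ ≤ T → ∀ a : ℝ, gd g (p + a • tt) (q + (a + T) • tt) ≤ c * T + seg g p q / c + K / T := by
  -- the functions `b` and `e`
  have hline : Continuous (fun s : ℝ => g.val (p + s • (q - p))) := by
    have h := g.smooth.continuous
    exact h.comp (by fun_prop)
  have hb : Continuous (fun s : ℝ => g.val (p + s • (q - p)) tt (q - p)) :=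
    (hline.clm_apply continuous_const).clm_apply continuous_const
  have he : Continuous (fun s : ℝ => g.val (p + s • (q - p)) (q - p) (q - p)) :=
    (hline.clm_apply continuous_const).clm_apply continuous_const
  obtain ⟨K1, hK1⟩ := (isCompact_Icc (a := (0 : ℝ)) (b := 1)).exists_bound_of_continuousOn
    he.continuousOn
  obtain ⟨K2, hK2⟩ := (isCompact_Icc (a := (0 : ℝ)) (b := 1)).exists_bound_of_continuousOn
    hb.continuousOn
  have hK1' : 0 ≤ K1 := (norm_nonneg _).trans (hK1 0 (by simp))
  have hK2' : 0 ≤ K2 := (norm_nonneg _).trans (hK2 0 (by simp))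
  refine ⟨K1 / c, 2 * K2 / c ^ 2 + 1, by positivity, by positivity, ?_⟩
  intro T hTT a
  have hTpos : 0 < T := lt_of_lt_of_le (by positivity) hTT
  have hTK : 2 * K2 / c ^ 2 ≤ T := by linarith
  have hgd := (hGd (m + 1) g).2.2.2 (cur p q a T) 0 1 (cur_smooth p q a T) zero_le_one
  have e0 : cur p q a T 0 = p + a • tt := by simp [cur]
  have e1 : cur p q a T 1 = q + (a + T) • tt := by simp [cur]
  rw [e0, e1] at hgd
  refine hgd.trans ?_
  -- the integrand
  have hN : ∀ s : ℝ, nrm g (cur p q a T s) (deriv (cur p q a T) s) =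
      Real.sqrt (g.val (p + s • (q - p)) (q - p) (q - p) +
        2 * T * g.val (p + s • (q - p)) tt (q - p) + c ^ 2 * T ^ 2) := by
    intro s
    rw [cur_deriv, nrm]
    congr 1
    have h1 : g.val (cur p q a T s) = g.val (p + s • (q - p)) := hT _ _
    rw [h1]
    simp only [map_add, map_smul, ContinuousLinearMap.add_apply, ContinuousLinearMap.smul_apply,
      smul_eq_mul]
    rw [hv, g.symm (p + s • (q - p)) (q - p) tt]
    ring
  have hbd : ∀ s ∈ Icc (0 : ℝ) 1, nrm g (cur p q a T s) (deriv (cur p q a T) s) ≤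
      c * T + g.val (p + s • (q - p)) tt (q - p) / c + K1 / c / T := by
    intro s hs
    rw [hN]
    have h1 := hK1 s hs
    have h2 := hK2 s hs
    have h0 : 0 ≤ g.val (p + s • (q - p)) (q - p) (q - p) +
        2 * T * g.val (p + s • (q - p)) tt (q - p) + c ^ 2 * T ^ 2 := by
      have h := g.nonneg (p + s • (q - p)) ((q - p) + T • tt)
      simp only [map_add, map_smul, ContinuousLinearMap.add_apply, ContinuousLinearMap.smul_apply,
        smul_eq_mul] at h
      rw [hv, g.symm (p + s • (q - p)) (q - p) tt] at h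
      linarith
    generalize g.val (p + s • (q - p)) (q - p) (q - p) = e at h1 h0 ⊢
    generalize g.val (p + s • (q - p)) tt (q - p) = b at h2 h0 ⊢
    rw [Real.norm_eq_abs] at h1 h2
    have h1' : e ≤ K1 := (le_abs_self _).trans h1
    have h2' : -K2 ≤ b := (abs_le.mp h2).1
    have hA : c * T / 2 ≤ c * T + b / c := by
      have h3 : -(K2 / c) ≤ b / c := by
        rw [← neg_div]
        exact div_le_div_of_nonneg_right h2' hc.le
      have h4 : K2 / c ≤ c * T / 2 := by
        rw [div_le_iff₀ (by positivity)] at hTK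
        rw [div_le_iff₀ hc]
        nlinarith
      linarith
    have hApos : 0 < c * T + b / c := lt_of_lt_of_le (by positivity) hA
    have hsq : e + 2 * T * b + c ^ 2 * T ^ 2 = (c * T + b / c) ^ 2 + (e - (b / c) ^ 2) := by
      field_simp
      ring
    set A := c * T + b / c with hAdef
    have h5 : Real.sqrt (e + 2 * T * b + c ^ 2 * T ^ 2) ≤ A + (e - (b / c) ^ 2) / (2 * A) := by
      have h6 : 2 * A * Real.sqrt (e + 2 * T * b + c ^ 2 * T ^ 2) ≤
          A ^ 2 + (e + 2 * T * b + c ^ 2 * T ^ 2) := by
        nlinarith [sq_nonneg (A - Real.sqrt (e + 2 * T * b + c ^ 2 * T ^ 2)), Real.sq_sqrt h0]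
      have h7 : A + (e - (b / c) ^ 2) / (2 * A) = (A ^ 2 + (e + 2 * T * b + c ^ 2 * T ^ 2)) / (2 * A) := by
        rw [hsq]
        field_simp
        ring
      rw [h7, le_div_iff₀ (by positivity)]
      linarith
    have h8 : (e - (b / c) ^ 2) / (2 * A) ≤ K1 / c / T := by
      have h9 : e - (b / c) ^ 2 ≤ K1 := by nlinarith [sq_nonneg (b / c)]
      calc (e - (b / c) ^ 2) / (2 * A) ≤ K1 / (2 * A) := by gcongr
        _ ≤ K1 / (c * T) := by
          apply div_le_div_of_nonneg_left hK1' (by positivity)
          linarith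
        _ = K1 / c / T := by rw [div_div]
    linarith
  have hint1 : IntervalIntegrable
      (fun s : ℝ => nrm g (cur p q a T s) (deriv (cur p q a T) s)) volume 0 1 := by
    apply Continuous.intervalIntegrable
    simp_rw [hN]
    apply Real.continuous_sqrt.comp
    fun_prop
  have hint2 : IntervalIntegrable
      (fun s : ℝ => c * T + g.val (p + s • (q - p)) tt (q - p) / c + K1 / c / T) volume 0 1 := by
    apply Continuous.intervalIntegrable
    fun_prop
  refine (intervalIntegral.integral_mono_on zero_le_one hint1 hint2 hbd).trans ?_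
  have hI : ∫ s in (0 : ℝ)..1, (c * T + g.val (p + s • (q - p)) tt (q - p) / c + K1 / c / T) =
      c * T + seg g p q / c + K1 / c / T := by
    rw [intervalIntegral.integral_add, intervalIntegral.integral_add]
    · rw [intervalIntegral.integral_div]
      simp [seg]
    · exact intervalIntegrable_const
    · exact (hb.div_const c).intervalIntegrable 0 1
    · exact (continuous_const.add (hb.div_const c)).intervalIntegrable 0 1
    · exact intervalIntegrable_const
  rw [hI]

end ISlope

/-- Sloped segments. -/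
theorem pr_Slope (hGd : StGd) : StSlope := by
  intro m g _ hT c hc hv p q
  exact ISlope.main hGd m g hT c hc hv p q

end Pool.Agent.NCP
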