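import Pool.Agent.Work.MP_13b5d9_gt.E.Stmts

set_option autoImplicit false

/-!
# MP_13b5d9_gt, block E, item Spl: splitting of invariant metrics
-/

open MeasureTheory Set Filter Topology
open scoped ContDiff ENNReal
open Pool.Agent.MLS

namespace Pool.Agent.NCP

namespace ISpl

variable {m : ℕ}

/-- the one form `g (tt, ·) / c` -/
noncomputable def be (g : Form (m + 1)) (c : ℝ) (p : E (m + 1)) : E (m + 1) →L[ℝ] ℝ :=
  c⁻¹ • g.val p tt

theorem be_apply (g : Form (m + 1)) (c : ℝ) (p u : E (m + 1)) :
    be g c p u = c⁻¹ * g.val p tt u := rfl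

theorem be_smooth (g : Form (m + 1)) (c : ℝ) : ContDiff ℝ ∞ (be g c) := by
  have h : ContDiff ℝ ∞ (fun p : E (m + 1) => g.val p tt) := g.smooth.clm_apply contDiff_const
  exact h.const_smul c⁻¹

theorem be_tri (hTri : StTri) (g : Form (m + 1)) (hR : Riem g) (hM : Minz g) (hT : TInv g) (c : ℝ)
    (hc : 0 < c) (hcc : ∀ p, g.val p tt tt = c ^ 2) (p q r : E (m + 1)) :
    (∫ s in (0 : ℝ)..1, be g c (p + s • (q - p)) (q - p)) +
    (∫ s in (0 : ℝ)..1, be g c (q + s • (r - q)) (r - q)) +
    (∫ s in (0 : ℝ)..1, be g c (r + s • (p - r)) (p - r)) = 0 := by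
  have h := hTri m g hR hM hT c hc hcc p q r
  have h1 : ∀ x y : E (m + 1), (∫ s in (0 : ℝ)..1, be g c (x + s • (y - x)) (y - x)) =
      c⁻¹ * seg g x y := by
    intro x y
    simp only [be_apply]
    rw [intervalIntegral.integral_const_mul]
    rfl
  rw [h1, h1, h1, ← mul_add, ← mul_add, h, mul_zero]

/-- the form `g - β ⊗ β` -/
noncomputable def hf (g : Form (m + 1)) (c : ℝ) (hc : 0 < c) (hcc : ∀ p, g.val p tt tt = c ^ 2) :
    Form (m + 1) where
  val := fun p => g.val p - (be g c p).smulRight (be g c p)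
  smooth := g.smooth.sub ((be_smooth g c).smulRight (be_smooth g c))
  symm := fun p u v => by
    change g.val p u v - be g c p u * be g c p v = g.val p v u - be g c p v * be g c p u
    rw [g.symm p u v]; ring
  nonneg := fun p v => by
    change 0 ≤ g.val p v v - be g c p v * be g c p v
    have h := g.nonneg p (v + (-(c⁻¹ * be g c p v)) • tt)
    have h2 : g.val p tt v = c * be g c p v := by
      rw [be_apply]; field_simp
    have h3 : g.val p v tt = c * be g c p v := by rw [g.symm, h2]
    have h4 : g.val p (v + (-(c⁻¹ * be g c p v)) • tt) (v + (-(c⁻¹ * be g c p v)) • tt) =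
        g.val p v v - be g c p v * be g c p v := by
      simp only [map_add, map_smul, ContinuousLinearMap.add_apply, ContinuousLinearMap.smul_apply,
        smul_eq_mul, h2, h3, hcc]
      field_simp
      ring
    rwa [h4] at h

theorem hf_apply (g : Form (m + 1)) (c : ℝ) (hc : 0 < c) (hcc : ∀ p, g.val p tt tt = c ^ 2)
    (p u v : E (m + 1)) :
    (hf g c hc hcc).val p u v = g.val p u v - be g c p u * be g c p v := rfl

end ISpl

open ISpl

/-- Item Spl. -/
theorem pr_Spl (hRot : StRotI) (hCst : StCst) (hTri : StTri) (hPot : StPot) : StSpl := by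
  intro m G _ _ hG g hR hI hM hT
  obtain ⟨c, hc, hcc⟩ := hCst m G hG g hR hI hM hT
  obtain ⟨f, hfs, hfd⟩ := hPot (m + 1) (be g c) (be_smooth g c)
    (be_tri hTri g hR hM hT c hc hcc)
  have hdtt := (hRot m G hG).1
  have hfd' : ∀ p, fderiv ℝ f p = be g c p := fun p => (hfd p).fderiv
  have hbT : ∀ (p : E (m + 1)) (s : ℝ), be g c (p + s • tt) = be g c p := fun p s => by
    unfold be; rw [hT p s]
  have hbtt : ∀ p, be g c p tt = c := fun p => by
    rw [be_apply, hcc]; field_simp
  have hbI : ∀ (a : G) (p u : E (m + 1)), be g c (a • p) (dac a p u) = be g c p u := by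
    intro a p u
    have h := hI a p tt u
    rw [hdtt a p] at h
    rw [be_apply, be_apply, h]
  refine ⟨c, f, hf g c hc hcc, hc, hfs, ?_, ?_, ?_, ?_, ?_, ?_⟩
  · intro p s
    have h1 : ∀ s : ℝ, HasDerivAt (fun s : ℝ => f (p + s • tt) - c * s) 0 s := by
      intro s
      have h2 : HasDerivAt (fun s : ℝ => p + s • (tt : E (m + 1))) tt s := by
        simpa using ((hasDerivAt_id s).smul_const (tt : E (m + 1))).const_add p
      have h3 := (hfd (p + s • tt)).comp_hasDerivAt s h2
      rw [hbtt] at h3
      have h4 : HasDerivAt (fun s : ℝ => f (p + s • tt) - c * s) (c - c * 1) s :=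
        h3.sub ((hasDerivAt_id s).const_mul c)
      rw [mul_one, sub_self] at h4
      exact h4
    have h5 := is_const_of_deriv_eq_zero (fun s => (h1 s).differentiableAt)
      (fun s => (h1 s).deriv) s 0
    simp only [zero_smul, add_zero, mul_zero, sub_zero] at h5
    linarith
  · intro a
    refine ⟨f (a • (0 : E (m + 1))) - f 0, fun p => ?_⟩
    have h1 : ∀ p : E (m + 1), HasFDerivAt (fun p : E (m + 1) => f (a • p) - f p)
        (0 : E (m + 1) →L[ℝ] ℝ) p := by
      intro p
      have h2 : HasFDerivAt (fun y : E (m + 1) => a • y) (dac a p) p :=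
        ((hG.coc.smooth a).differentiable (by norm_num)).differentiableAt.hasFDerivAt
      have h3 := (hfd (a • p)).comp p h2
      have h4 := h3.sub (hfd p)
      have h5 : (be g c (a • p)).comp (dac a p) - be g c p = 0 := by
        ext1 u
        change be g c (a • p) (dac a p u) - be g c p u = 0
        rw [hbI, sub_self]
      rw [h5] at h4
      exact h4
    have h6 := is_const_of_fderiv_eq_zero (fun p => (h1 p).differentiableAt)
      (fun p => (h1 p).fderiv) p 0
    have h7 : f (a • p) - f p = f (a • (0 : E (m + 1))) - f 0 := h6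
    linarith
  · intro a p u v
    rw [hf_apply, hf_apply, hI, hbI, hbI]
  · intro p s
    change g.val (p + s • tt) - _ = g.val p - _
    rw [hT p s, hbT]
  · intro p u
    rw [hf_apply, hbtt, be_apply]
    field_simp
    ring
  · intro p u v
    rw [hf_apply, hfd']
    ring

end Pool.Agent.NCP
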