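import Mathlib
import Pool.Agent.Work.MP_13b5d9_gt.E.Stmts

set_option autoImplicit false

open MeasureTheory Set Filter Topology
open scoped ContDiff ENNReal
open Pool.Agent.MLS

namespace Pool.Agent.NCP

namespace ITri

/-- the segment backwards -/
theorem seg_symm {m : ℕ} (g : Form (m + 1)) (p q : E (m + 1)) : seg g q p = - seg g p q := by
  unfold seg
  have h1 : (∫ s in (0 : ℝ)..1, g.val (q + s • (p - q)) tt (p - q))
      = ∫ s in (0 : ℝ)..1, (fun u : ℝ => - g.val (p + u • (q - p)) tt (q - p)) (1 - s) := by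
    apply intervalIntegral.integral_congr
    intro s _
    have e1 : p + (1 - s) • (q - p) = q + s • (p - q) := by
      module
    have e2 : p - q = - (q - p) := by abel
    simp only
    rw [e1]
    conv_lhs => rw [show g.val (q + s • (p - q)) tt (p - q)
      = g.val (q + s • (p - q)) tt (-(q - p)) from by rw [neg_sub]]
    rw [map_neg]
  rw [h1, intervalIntegral.integral_comp_sub_left
    (fun u : ℝ => - g.val (p + u • (q - p)) tt (q - p)) 1]
  rw [sub_self, sub_zero, intervalIntegral.integral_neg]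

/-- one sign -/
theorem nonneg (hGd : StGd) (hMin : StMin) (hSl : StSlope) (m : ℕ) (g : Form (m + 1))
    (hR : Riem g) (hM : Minz g) (hT : TInv g) (c : ℝ) (hc : 0 < c)
    (hv : ∀ p, g.val p tt tt = c ^ 2) (p q r : E (m + 1)) :
    0 ≤ seg g p q + seg g q r + seg g r p := by
  obtain ⟨-, hPM, -, -⟩ := hGd (m + 1) g
  obtain ⟨K1, T1, hT1, hK1, h1⟩ := hSl m g hR hT c hc hv p q
  obtain ⟨K2, T2, hT2, hK2, h2⟩ := hSl m g hR hT c hc hv q r
  obtain ⟨K3, T3, hT3, hK3, h3⟩ := hSl m g hR hT c hc hv r p
  have key : ∀ T : ℝ, T1 ≤ T → T2 ≤ T → T3 ≤ T → 0 < T →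
      0 ≤ (seg g p q + seg g q r + seg g r p) / c + (K1 + K2 + K3) / T := by
    intro T ha hb hd hpos
    have a1 := h1 T ha 0
    have a2 := h2 T hb T
    have a3 := h3 T hd (T + T)
    have a4 := hMin m g hR hM hT c hc hv p (T + T + T) (by positivity)
    rw [zero_smul, add_zero, zero_add] at a1
    have t1 := hPM.tri p (q + T • tt) (p + (T + T + T) • tt)
    have t2 := hPM.tri (q + T • tt) (r + (T + T) • tt) (p + (T + T + T) • tt)
    have e : (seg g p q + seg g q r + seg g r p) / c + (K1 + K2 + K3) / T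
        = seg g p q / c + seg g q r / c + seg g r p / c + (K1 / T + K2 / T + K3 / T) := by
      rw [add_div, add_div, add_div, add_div]
    rw [e]
    have e2 : c * (T + T + T) = c * T + c * T + c * T := by ring
    linarith
  by_contra hneg
  push Not at hneg
  set S := seg g p q + seg g q r + seg g r p with hS
  set K := K1 + K2 + K3 with hK
  have hK0 : 0 ≤ K := by positivity
  have hSc : S / c < 0 := div_neg_of_neg_of_pos hneg hc
  set T := max (max T1 T2) (max T3 ((K + 1) / (-(S / c)))) with hTd
  have b1 : T1 ≤ T := le_trans (le_max_left _ _) (le_max_left _ _)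
  have b2 : T2 ≤ T := le_trans (le_max_right _ _) (le_max_left _ _)
  have b3 : T3 ≤ T := le_trans (le_max_left _ _) (le_max_right _ _)
  have b4 : (K + 1) / (-(S / c)) ≤ T := le_trans (le_max_right _ _) (le_max_right _ _)
  have hTp : 0 < T := lt_of_lt_of_le hT1 b1
  have hk := key T b1 b2 b3 hTp
  rw [div_le_iff₀ (by linarith)] at b4
  have : K / T < -(S / c) := by
    rw [div_lt_iff₀ hTp]
    linarith
  linarith

end ITri

/-- Triangles. -/
theorem pr_Tri (hGd : StGd) (hMin : StMin) (hSl : StSlope) : StTri := by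
  intro m g hR hM hT c hc hv p q r
  have h1 := ITri.nonneg hGd hMin hSl m g hR hM hT c hc hv p q r
  have h2 := ITri.nonneg hGd hMin hSl m g hR hM hT c hc hv p r q
  rw [ITri.seg_symm g p q, ITri.seg_symm g q r, ITri.seg_symm g r p] at h2
  linarith

end Pool.Agent.NCP
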