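import Pool.Agent.Work.MP_13b5d9_gt.E.Stmts

set_option autoImplicit false

/-!
# MP_13b5d9_gt, item Trn: rotations preserve the total volume
-/

open MeasureTheory Set Filter Topology
open scoped ContDiff ENNReal
open Pool.Agent.MLS

namespace Pool.Agent.NCP

namespace ITrn

/-- The partition of unity, in the extended nonnegative reals. -/
theorem tsum_ofReal {n : ℕ} {G : Type} [Group G] [MulAction G (E n)] {χ : E n → ℝ} (h : PU G χ)
    (x : E n) : ∑' a : G, ENNReal.ofReal (χ (a • x)) = 1 := by
  have h1 := h.sum x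
  rw [← ENNReal.ofReal_tsum_of_nonneg (fun a => h.nonneg _) h1.summable, h1.tsum_eq,
    ENNReal.ofReal_one]

end ITrn

open ITrn in
theorem pr_Trn (h1 : StUnf) (h2 : StCnt) (h3 : StDens) : StTrn := by
  intro m G _ _ hC g hR hI χ hχ s
  have hG := hC.coc
  have : Countable G := h2 (m + 1) G hG
  obtain ⟨_, hdc, hd⟩ := h3 (m + 1) g hR
  obtain ⟨_, hmp⟩ := hd G hG hI
  have hdc' : Continuous (dens g) := hdc.continuous
  have hd0 : ∀ x, 0 ≤ dens g x := fun x => Real.sqrt_nonneg _
  have hdm : Measurable fun x => ENNReal.ofReal (dens g x) := hdc'.measurable.ennreal_ofReal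
  have hχc : Continuous χ := hχ.smooth.continuous
  have hχm : Measurable fun x => ENNReal.ofReal (χ x) := hχc.measurable.ennreal_ofReal
  -- the translated function
  have htr : ∫ p, χ p * dens g (p + s • (tt : E (m + 1))) =
      ∫ q, χ (q - s • (tt : E (m + 1))) * dens g q := by
    rw [← integral_add_right_eq_self (μ := (volume : Measure (E (m + 1))))
      (fun q => χ (q - s • (tt : E (m + 1))) * dens g q) (s • (tt : E (m + 1)))]
    simp only [add_sub_cancel_right]
  rw [htr]
  have hχ'c : Continuous fun q => χ (q - s • (tt : E (m + 1))) :=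
    hχc.comp (continuous_id.sub continuous_const)
  have hχ'm : Measurable fun x => ENNReal.ofReal (χ (x - s • (tt : E (m + 1)))) :=
    hχ'c.measurable.ennreal_ofReal
  have hsum' : ∀ x : E (m + 1),
      ∑' a : G, ENNReal.ofReal (χ (a • x - s • (tt : E (m + 1)))) = 1 := by
    intro x
    rw [← tsum_ofReal hχ (x - s • (tt : E (m + 1)))]
    congr 1
    ext a
    have h := hC.comm a x (-s)
    rw [neg_smul, ← sub_eq_add_neg, ← sub_eq_add_neg] at h
    rw [h]
  have key := h1 (E (m + 1)) (volume.withDensity fun x => ENNReal.ofReal (dens g x)) G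
    (fun a x => a • x) hmp (fun a b x => mul_smul a b x) (fun x => one_smul G x)
    (fun x => ENNReal.ofReal (χ (x - s • (tt : E (m + 1))))) (fun x => ENNReal.ofReal (χ x))
    (fun _ => 1) hχ'm hχm measurable_const hsum' (tsum_ofReal hχ) (fun _ _ => rfl)
  simp only [mul_one] at key
  rw [lintegral_withDensity_eq_lintegral_mul _ hdm hχ'm,
    lintegral_withDensity_eq_lintegral_mul _ hdm hχm] at key
  rw [integral_eq_lintegral_of_nonneg_ae, integral_eq_lintegral_of_nonneg_ae]
  · congr 1
    refine Eq.trans ?_ (key.trans ?_)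
    · refine lintegral_congr fun x => ?_
      simp only [Pi.mul_apply]
      rw [ENNReal.ofReal_mul (hχ.nonneg _), mul_comm]
    · refine lintegral_congr fun x => ?_
      simp only [Pi.mul_apply]
      rw [ENNReal.ofReal_mul (hχ.nonneg x), mul_comm]
  · exact Eventually.of_forall fun x => mul_nonneg (hχ.nonneg x) (hd0 x)
  · exact (hχc.mul hdc').aestronglyMeasurable
  · exact Eventually.of_forall fun x => mul_nonneg (hχ.nonneg _) (hd0 x)
  · exact (hχ'c.mul hdc').aestronglyMeasurable

end Pool.Agent.NCP
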