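import Pool.Agent.Work.MP_13b5d9_gt.E.Stmts

set_option autoImplicit false

namespace Pool.Agent.NCP

namespace IYng

/-- `ρ ^ e ≤ (e / s) ρ ^ s + (s - e) / s` for `0 ≤ e ≤ s` -/
theorem wt (s e ρ : ℝ) (hs : 0 < s) (he : 0 ≤ e) (hes : e ≤ s) (hρ : 0 < ρ) :
    ρ ^ e ≤ e / s * ρ ^ s + (s - e) / s := by
  have h := Real.geom_mean_le_arith_mean2_weighted (w₁ := e / s) (w₂ := (s - e) / s)
    (p₁ := ρ ^ s) (p₂ := 1) (by positivity) (div_nonneg (by linarith) hs.le)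
    (Real.rpow_nonneg hρ.le _) zero_le_one (by field_simp; ring)
  rw [Real.one_rpow, mul_one, mul_one, ← Real.rpow_mul hρ.le, mul_div_cancel₀ e hs.ne'] at h
  exact h

end IYng

theorem pr_Yng : StYng := by
  intro m k ρ hm hk hkm hρ
  have hm' : (2 : ℝ) ≤ m := by exact_mod_cast hm
  have hs : (0 : ℝ) < m + k := by linarith
  have h1 := IYng.wt (m + k) (2 * k) ρ hs (by linarith) (by linarith) hρ
  have h2 := IYng.wt (m + k) 2 ρ hs (by norm_num) (by linarith) hρ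
  rw [Real.rpow_two] at h2
  have h3 : (m : ℝ) * ρ ^ 2 ≤ m * (2 / (m + k) * ρ ^ ((m : ℝ) + k) + (m + k - 2) / (m + k)) :=
    mul_le_mul_of_nonneg_left h2 (by linarith)
  have h4 : 2 * k / (m + k) * ρ ^ ((m : ℝ) + k) + (m + k - 2 * k) / (m + k) +
      m * (2 / (m + k) * ρ ^ ((m : ℝ) + k) + (m + k - 2) / (m + k)) =
      2 * ρ ^ ((m : ℝ) + k) + (m - 1) := by
    field_simp
    ring
  linarith

end Pool.Agent.NCP
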